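import Pool.Agent.helper96.TC.H0a
import Pool.Agent.helper62.TC.BR

/-! # [TC-H0], second part: homotopy equivalences -/

set_option autoImplicit false
open Topology

noncomputable section
namespace Pool.Agent.helper73.TC

section H0
variable (F : Type) [Field F] {X Y Z : Type} [TopologicalSpace X] [TopologicalSpace Y]
  [TopologicalSpace Z]

/-- homotopy equivalences -/
theorem HI_of_equiv (f : C(X, Y)) (g : C(Y, X)) (hgf : (g.comp f).Homotopic (.id X)) (n : ℕ) :
    HI F f n := by
  intro z hz h
  have h1 := homotopic_push F _ _ hgf n z hz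
  have h2 := push_bdy F g n _ h
  rw [← push_comp] at h2
  rw [h96_push_id] at h1
  have h3 := Submodule.sub_mem _ h2 h1
  rwa [sub_sub_cancel] at h3

theorem HI_cancel (g : C(Y, Z)) (f : C(X, Y)) (r : C(Y, X)) (hfr : (f.comp r).Homotopic (.id Y))
    (n : ℕ) (h : HI F (g.comp f) n) : HI F g n := by
  intro z hz hb
  have h1 := homotopic_push F _ _ hfr n z hz
  rw [h96_push_id, push_comp] at h1
  have h2 : push F (g.comp f) n (push F r n z) ∈ bdy F Z n := by
    rw [push_comp]
    have h3 := Submodule.add_mem _ (push_bdy F g n _ h1) hb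
    rwa [map_sub, sub_add_cancel] at h3
  have h4 := push_bdy F f n _ (h _ (push_cyc F r n z hz) h2)
  have h5 := Submodule.sub_mem _ h4 h1
  rwa [sub_sub_cancel] at h5

theorem HZ_of_equiv (f : C(X, Y)) (g : C(Y, X)) (hfg : (f.comp g).Homotopic (.id Y)) (n : ℕ)
    (h : HZ F X n) : HZ F Y n := by
  intro z hz
  have h1 := homotopic_push F _ _ hfg n z hz
  rw [h96_push_id, push_comp] at h1
  have h2 := push_bdy F f n _ (h (push_cyc F g n z hz))
  have h3 := Submodule.sub_mem _ h2 h1
  rwa [sub_sub_cancel] at h3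

theorem HZ_of_contractible [ContractibleSpace X] (n : ℕ) (hn : 1 ≤ n) : HZ F X n := by
  obtain ⟨e⟩ := ContractibleSpace.hequiv_unit X
  exact HZ_of_equiv F e.invFun e.toFun e.left_inv n (h96_HZ_unit F n hn)

end H0

end Pool.Agent.helper73.TC
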