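import Pool.Agent.helper73.TC.HDefs

/-! # [TC-H0], first part: elementary facts on concrete singular chains without homotopies -/

set_option autoImplicit false
open Topology

noncomputable section
namespace Pool.Agent.helper73.TC

section H0
variable (F : Type) [Field F] {X Y Z : Type} [TopologicalSpace X] [TopologicalSpace Y]
  [TopologicalSpace Z]

theorem h96_bd_single (n : ℕ) (σ : Sing X (n + 1)) (a : F) :
    bd F X n (Finsupp.single σ a) =
      ∑ i : Fin (n + 2), (-1 : F) ^ (i : ℕ) •
        Finsupp.single (σ.comp (faceMap n i) : Sing X n) a := by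
  simp [bd, Finsupp.lmapDomain_apply, Finsupp.mapDomain_single]

theorem h96_push_single (f : C(X, Y)) (n : ℕ) (σ : Sing X n) (a : F) :
    push F f n (Finsupp.single σ a) = Finsupp.single (f.comp σ : Sing Y n) a := by
  simp [push, Finsupp.lmapDomain_apply, Finsupp.mapDomain_single]

theorem h96_face_face (n : ℕ) (i : Fin (n + 3)) (j : Fin (n + 2)) :
    (faceMap (n + 1) (i.succAbove j)).comp (faceMap n (j.predAbove i)) =
      (faceMap (n + 1) i).comp (faceMap n j) := by
  ext1 t
  simp only [ContinuousMap.comp_apply, faceMap, ContinuousMap.coe_mk]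
  rw [stdSimplex.map_comp_apply, stdSimplex.map_comp_apply]
  congr 1
  funext k
  exact Fin.succAbove_succAbove_succAbove_predAbove i j k

theorem bd_bd (n : ℕ) : bd F X n ∘ₗ bd F X (n + 1) = 0 := by
  apply Finsupp.lhom_ext
  intro σ a
  rw [LinearMap.comp_apply, h96_bd_single, map_sum, LinearMap.zero_apply]
  simp only [map_smul, h96_bd_single, Finset.smul_sum, smul_smul]
  rw [← Finset.sum_product' (s := Finset.univ) (t := Finset.univ)
    (f := fun (i : Fin (n + 1 + 2)) (j : Fin (n + 2)) => ((-1 : F) ^ (i : ℕ) * (-1 : F) ^ (j : ℕ)) •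
      Finsupp.single ((σ.comp (faceMap (n + 1) i)).comp (faceMap n j) : Sing X n) a)]
  refine Finset.sum_involution (fun p _ => (p.1.succAbove p.2, p.2.predAbove p.1)) ?_ ?_ ?_ ?_
  · rintro ⟨i, j⟩ _
    simp only
    rw [ContinuousMap.comp_assoc, ContinuousMap.comp_assoc, h96_face_face, ← pow_add, ← pow_add,
      Fin.neg_one_pow_succAbove_add_predAbove, neg_smul, add_neg_cancel]
  · rintro ⟨i, j⟩ _ _ h
    exact Fin.succAbove_ne i j (congrArg Prod.fst h)
  · rintro ⟨i, j⟩ _
    exact Finset.mem_univ _
  · rintro ⟨i, j⟩ _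
    simp only [Prod.mk.injEq]
    exact ⟨Fin.succAbove_succAbove_predAbove i j, Fin.predAbove_predAbove_succAbove i j⟩

theorem push_bd (f : C(X, Y)) (n : ℕ) (z : SC F X (n + 1)) :
    bd F Y n (push F f (n + 1) z) = push F f n (bd F X n z) := by
  induction z using Finsupp.induction_linear with
  | zero => simp
  | add a b ha hb => rw [map_add, map_add, map_add, map_add, ha, hb]
  | single σ a =>
    rw [h96_push_single, h96_bd_single, h96_bd_single, map_sum]
    simp only [map_smul, h96_push_single]
    rfl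

theorem push_comp (g : C(Y, Z)) (f : C(X, Y)) (n : ℕ) (z : SC F X n) :
    push F (g.comp f) n z = push F g n (push F f n z) := by
  induction z using Finsupp.induction_linear with
  | zero => simp
  | add a b ha hb => rw [map_add, map_add, map_add, ha, hb]
  | single σ a =>
    rw [h96_push_single, h96_push_single, h96_push_single]
    rfl

theorem h96_push_id (n : ℕ) (z : SC F X n) : push F (.id X) n z = z := by
  induction z using Finsupp.induction_linear with
  | zero => simp
  | add a b ha hb => rw [map_add, ha, hb]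
  | single σ a =>
    rw [h96_push_single]
    rfl

theorem push_cyc (f : C(X, Y)) (n : ℕ) (z : SC F X n) (hz : z ∈ cyc F X n) :
    push F f n z ∈ cyc F Y n := by
  cases n with
  | zero => trivial
  | succ n =>
    have hz' : bd F X n z = 0 := hz
    change bd F Y n (push F f (n + 1) z) = 0
    rw [push_bd, hz', map_zero]

theorem push_bdy (f : C(X, Y)) (n : ℕ) (z : SC F X n) (hz : z ∈ bdy F X n) :
    push F f n z ∈ bdy F Y n := by
  obtain ⟨w, rfl⟩ := hz
  exact ⟨push F f (n + 1) w, push_bd F f n w⟩

theorem HI_comp (g : C(Y, Z)) (f : C(X, Y)) (n : ℕ) (hg : HI F g n) (hf : HI F f n) :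
    HI F (g.comp f) n := by
  intro z hz h
  rw [push_comp] at h
  exact hf z hz (hg _ (push_cyc F f n z hz) h)

/-! ### degree zero -/

theorem h96_sum_smul (n : ℕ) (c : F) (z : SC F X n) :
    ((c • z).sum fun _ c => c) = c * (z.sum fun _ c => c) := by
  rw [Finsupp.sum_smul_index (fun _ => rfl), Finsupp.mul_sum]

theorem sum_bdy_zero (z : SC F X 0) (h : z ∈ bdy F X 0) : (z.sum fun _ c => c) = 0 := by
  obtain ⟨w, rfl⟩ := h
  induction w using Finsupp.induction_linear with
  | zero => simp
  | add a b ha hb =>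
    rw [map_add, Finsupp.sum_add_index' (fun _ => rfl) (fun _ _ _ => rfl), ha, hb, add_zero]
  | single σ a =>
    rw [h96_bd_single, Fin.sum_univ_two, Finsupp.sum_add_index' (fun _ => rfl) (fun _ _ _ => rfl),
      h96_sum_smul, h96_sum_smul, Finsupp.sum_single_index rfl, Finsupp.sum_single_index rfl]
    simp

private theorem h96_face_zero (t : stdSimplex ℝ (Fin 1)) :
    (faceMap 0 0 t).1 1 = 1 := by
  have h := t.2.2
  rw [Fin.sum_univ_one] at h
  change FunOnFinite.linearMap ℝ ℝ (Fin.succAbove 0) t.1 1 = 1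
  rw [FunOnFinite.linearMap_apply_apply]
  have : (Finset.univ.filter fun x : Fin 1 => (Fin.succAbove 0 x : Fin 2) = 1) = {0} := by decide
  rw [this, Finset.sum_singleton]
  exact h

private theorem h96_face_one (t : stdSimplex ℝ (Fin 1)) :
    (faceMap 0 1 t).1 1 = 0 := by
  change FunOnFinite.linearMap ℝ ℝ (Fin.succAbove 1) t.1 1 = 0
  rw [FunOnFinite.linearMap_apply_apply]
  have : (Finset.univ.filter fun x : Fin 1 => (Fin.succAbove 1 x : Fin 2) = 1) = ∅ := by decide
  rw [this, Finset.sum_empty]

theorem h96_path [PathConnectedSpace X] (σ σ' : Sing X 0) :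
    (Finsupp.single σ 1 - Finsupp.single σ' 1 : SC F X 0) ∈ bdy F X 0 := by
  have pt : stdSimplex ℝ (Fin (0 + 1)) := ⟨Pi.single 0 1, single_mem_stdSimplex ℝ 0⟩
  have huniq : ∀ t t' : stdSimplex ℝ (Fin (0 + 1)), t = t' := fun t t' => by
    have h := t.2.2
    have h' := t'.2.2
    rw [Fin.sum_univ_one] at h h'
    apply Subtype.ext
    funext i
    have hi : i = 0 := by omega
    rw [hi]
    exact h.trans h'.symm
  let γ : Path (σ' pt) (σ pt) := PathConnectedSpace.somePath _ _
  let τ : Sing X 1 := ⟨fun t => γ ⟨t.1 1, t.2.1 1, by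
      have h := t.2.2
      have h0 := t.2.1 0
      rw [Fin.sum_univ_two] at h
      linarith⟩, by
    refine γ.continuous.comp (Continuous.subtype_mk ?_ _)
    exact (continuous_apply 1).comp continuous_subtype_val⟩
  refine ⟨Finsupp.single τ 1, ?_⟩
  rw [h96_bd_single, Fin.sum_univ_two]
  have e0 : (τ.comp (faceMap 0 0) : Sing X 0) = σ := by
    ext t
    have h1 : (τ.comp (faceMap 0 0)) t = γ 1 := by
      change γ _ = γ 1
      congr 1
      apply Subtype.ext
      exact h96_face_zero t
    rw [h1, γ.target, huniq pt t]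
  have e1 : (τ.comp (faceMap 0 1) : Sing X 0) = σ' := by
    ext t
    have h1 : (τ.comp (faceMap 0 1)) t = γ 0 := by
      change γ _ = γ 0
      congr 1
      apply Subtype.ext
      exact h96_face_one t
    rw [h1, γ.source, huniq pt t]
  rw [e0, e1]
  simp [sub_eq_add_neg]

/-- degree zero: a chain of sum zero on a path connected space is a boundary -/
theorem bdy_zero_of_path [PathConnectedSpace X] (z : SC F X 0) (h : (z.sum fun _ c => c) = 0) :
    z ∈ bdy F X 0 := by
  obtain ⟨x0⟩ : Nonempty X := PathConnectedSpace.nonempty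
  let σ0 : Sing X 0 := ContinuousMap.const _ x0
  have key : z = z.sum fun σ c => c • (Finsupp.single σ 1 - Finsupp.single σ0 1 : SC F X 0) := by
    simp only [smul_sub]
    rw [Finsupp.sum_sub]
    have h2 : (z.sum fun σ c => c • (Finsupp.single σ0 1 : SC F X 0)) =
        (z.sum fun _ c => c) • (Finsupp.single σ0 1 : SC F X 0) := by
      rw [Finsupp.sum, Finsupp.sum, Finset.sum_smul]
    have h3 : (z.sum fun σ c => c • (Finsupp.single σ 1 : SC F X 0)) = z := by
      simp
    rw [h2, h, zero_smul, sub_zero, h3]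
  rw [key]
  exact Submodule.sum_mem _ fun σ _ => Submodule.smul_mem _ _ (h96_path F σ σ0)

end H0

/-! ### the point -/
section pt
variable (F : Type) [Field F]

theorem h96_HZ_unit (n : ℕ) (hn : 1 ≤ n) : HZ F Unit n := by
  have huniq : ∀ (m : ℕ) (σ σ' : Sing Unit m), σ = σ' := fun m σ σ' => by ext
  have hsum : ∀ m : ℕ, ∑ i : Fin (m + 2), (-1 : F) ^ (i : ℕ) = if Even m then 0 else 1 := by
    intro m
    rw [Fin.sum_univ_eq_sum_range (fun i => (-1 : F) ^ i), ]
    induction m with
    | zero => simp [Finset.sum_range_succ]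
    | succ m ih =>
      rw [Finset.sum_range_succ, ih]
      by_cases h : Even m
      · have h2 : ¬ Even (m + 1) := by rwa [Nat.even_add_one, not_not]
        rw [if_pos h, if_neg h2, zero_add, Even.neg_one_pow (by simpa [Nat.even_add] using h)]
      · have h2 : Even (m + 1) := by rwa [Nat.even_add_one]
        rw [if_neg h, if_pos h2, Odd.neg_one_pow]
        · ring
        · simpa [Nat.odd_add, Nat.even_add] using h
  have hbd : ∀ (m : ℕ) (σ : Sing Unit m) (σ' : Sing Unit (m + 1)) (a : F),
      bd F Unit m (Finsupp.single σ' a) =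
        (if Even m then 0 else 1 : F) • Finsupp.single σ a := by
    intro m σ σ' a
    rw [h96_bd_single, ← hsum m, Finset.sum_smul]
    refine Finset.sum_congr rfl fun i _ => ?_
    rw [huniq m (σ'.comp (faceMap m i)) σ]
  have hall : ∀ (m : ℕ) (σ : Sing Unit m) (z : SC F Unit m), z = Finsupp.single σ (z σ) := by
    intro m σ z
    ext τ
    rw [huniq m τ σ, Finsupp.single_eq_same]
  obtain ⟨m, rfl⟩ : ∃ m, n = m + 1 := ⟨n - 1, by omega⟩
  intro z hz
  have hz' : bd F Unit m z = 0 := hz
  let σ0 : Sing Unit m := ContinuousMap.const _ ()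
  let σ1 : Sing Unit (m + 1) := ContinuousMap.const _ ()
  let σ2 : Sing Unit (m + 1 + 1) := ContinuousMap.const _ ()
  rw [hall _ σ1 z] at hz' ⊢
  by_cases h : Even m
  · have h2 : ¬ Even (m + 1) := by rwa [Nat.even_add_one, not_not]
    refine ⟨Finsupp.single σ2 (z σ1), ?_⟩
    rw [hbd (m + 1) σ1 σ2, if_neg h2, one_smul]
  · rw [hbd m σ0 σ1, if_neg h, one_smul, Finsupp.single_eq_zero] at hz'
    rw [hz', Finsupp.single_zero]
    exact Submodule.zero_mem _

end pt

end Pool.Agent.helper73.TC
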