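import Pool.Agent.helper88.TC.S3
import Pool.Agent.helper96.TC.H0a

/-! # [TC-S4] small simplices theorem for an open cover by two sets -/

set_option autoImplicit false
open Topology

noncomputable section
namespace Pool.Agent.helper73.TC

section S4
variable (F : Type) [Field F] {X : Type} [TopologicalSpace X] (U V : Set X)

/-- chains whose simplices lie in `U` or in `V` -/
private def smC (n : ℕ) : Submodule F (SC F X n) :=
  LinearMap.range (push F (inc U) n) ⊔ LinearMap.range (push F (inc V) n)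

private theorem mem_smC {n : ℕ} {z : SC F X n} : z ∈ smC F U V n ↔
    ∃ (u : SC F U n) (v : SC F V n), z = push F (inc U) n u + push F (inc V) n v := by
  unfold smC
  rw [Submodule.mem_sup]
  constructor
  · rintro ⟨_, ⟨u, rfl⟩, _, ⟨v, rfl⟩, h⟩
    exact ⟨u, v, h.symm⟩
  · rintro ⟨u, v, h⟩
    exact ⟨_, ⟨u, rfl⟩, _, ⟨v, rfl⟩, h.symm⟩

private theorem push_single' {X Y : Type} [TopologicalSpace X] [TopologicalSpace Y] (f : C(X, Y))
    (n : ℕ) (σ : Sing X n) (a : F) :
    push F f n (Finsupp.single σ a) = Finsupp.single (f.comp σ : Sing Y n) a := by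
  simp [push, Finsupp.lmapDomain_apply, Finsupp.mapDomain_single]

private theorem single_mem_range (n : ℕ) (σ : Sing X n) (h : ∀ t, σ t ∈ U) (a : F) :
    Finsupp.single σ a ∈ LinearMap.range (push F (inc U) n) := by
  refine ⟨Finsupp.single (⟨fun t => ⟨σ t, h t⟩, by fun_prop⟩ : Sing U n) a, ?_⟩
  rw [push_single']
  congr 1

private theorem Sd_mem_smC (n : ℕ) {z : SC F X n} (hz : z ∈ smC F U V n) :
    Sd F X n z ∈ smC F U V n := by
  rw [mem_smC] at hz ⊢
  obtain ⟨u, v, rfl⟩ := hz
  refine ⟨Sd F U n u, Sd F V n v, ?_⟩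
  rw [map_add, push_Sd, push_Sd]

private theorem pow_Sd_mem_smC (n k : ℕ) {z : SC F X n} (hz : z ∈ smC F U V n) :
    ((Sd F X n) ^ k) z ∈ smC F U V n := by
  induction k with
  | zero => simpa using hz
  | succ k ih =>
    rw [pow_succ', Module.End.mul_apply]
    exact Sd_mem_smC F U V n ih

private theorem pow_Sd_mem_smC_of_le (n : ℕ) {z : SC F X n} {j k : ℕ} (hjk : j ≤ k)
    (hz : ((Sd F X n) ^ j) z ∈ smC F U V n) :
    ((Sd F X n) ^ k) z ∈ smC F U V n := by
  obtain ⟨i, rfl⟩ := Nat.exists_eq_add_of_le hjk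
  rw [add_comm, pow_add, Module.End.mul_apply]
  exact pow_Sd_mem_smC F U V n i hz

private theorem push_pow_Sd {X Y : Type} [TopologicalSpace X] [TopologicalSpace Y] (f : C(X, Y))
    (n k : ℕ) (z : SC F X n) :
    push F f n (((Sd F X n) ^ k) z) = ((Sd F Y n) ^ k) (push F f n z) := by
  induction k with
  | zero => simp
  | succ k ih =>
    rw [pow_succ', pow_succ', Module.End.mul_apply, Module.End.mul_apply, push_Sd, ih]

private theorem exists_pow_single (hU : IsOpen U) (hV : IsOpen V) (hUV : U ∪ V = Set.univ) (n : ℕ)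
    (σ : Sing X n) : ∃ k : ℕ, ((Sd F X n) ^ k) (Finsupp.single σ 1) ∈ smC F U V n := by
  classical
  obtain ⟨δ, hδ, hleb⟩ := lebesgue_number_lemma_of_metric
    (s := (Set.univ : Set (stdSimplex ℝ (Fin (n + 1)))))
    (c := fun b : Bool => if b then σ ⁻¹' U else σ ⁻¹' V) isCompact_univ
    (by
      intro b
      cases b
      · simpa using hV.preimage σ.continuous
      · simpa using hU.preimage σ.continuous)
    (by
      intro x _
      have hx : σ x ∈ U ∪ V := by rw [hUV]; trivial
      rcases hx with hx | hx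
      · exact Set.mem_iUnion.2 ⟨true, by simpa using hx⟩
      · exact Set.mem_iUnion.2 ⟨false, by simpa using hx⟩)
  obtain ⟨k, hk⟩ := mesh_Sd F n (δ / 2) (half_pos hδ)
  refine ⟨k, ?_⟩
  have h1 : (Finsupp.single σ 1 : SC F X n) = push F σ n
      (Finsupp.single (ContinuousMap.id _ : Sing (stdSimplex ℝ (Fin (n + 1))) n) 1) := by
    rw [push_single']
    congr 1
  rw [h1, ← push_pow_Sd]
  set w := ((Sd F (stdSimplex ℝ (Fin (n + 1))) n) ^ k)
      (Finsupp.single (ContinuousMap.id _ : Sing (stdSimplex ℝ (Fin (n + 1))) n) 1) with hw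
  rw [← Finsupp.sum_single w, Finsupp.sum, map_sum]
  refine Submodule.sum_mem _ fun τ hτ => ?_
  rw [push_single']
  have hd := hk τ hτ
  obtain ⟨b, hb⟩ := hleb (τ (vert n 0)) (Set.mem_univ _)
  have hball : ∀ t, τ t ∈ Metric.ball (τ (vert n 0)) δ := fun t => by
    rw [Metric.mem_ball]
    exact lt_of_le_of_lt (hd t (vert n 0)) (half_lt_self hδ)
  cases b
  · refine Submodule.mem_sup_right (single_mem_range F V n _ (fun t => ?_) _)
    have := hb (hball t)
    simpa using this
  · refine Submodule.mem_sup_left (single_mem_range F U n _ (fun t => ?_) _)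
    have := hb (hball t)
    simpa using this

private theorem exists_pow (hU : IsOpen U) (hV : IsOpen V) (hUV : U ∪ V = Set.univ) (n : ℕ)
    (z : SC F X n) : ∃ k : ℕ, ((Sd F X n) ^ k) z ∈ smC F U V n := by
  induction z using Finsupp.induction_linear with
  | zero => exact ⟨0, by simp⟩
  | add f g hf hg =>
    obtain ⟨j, hj⟩ := hf
    obtain ⟨k, hk⟩ := hg
    refine ⟨max j k, ?_⟩
    rw [map_add]
    exact Submodule.add_mem _ (pow_Sd_mem_smC_of_le F U V n (le_max_left _ _) hj)
      (pow_Sd_mem_smC_of_le F U V n (le_max_right _ _) hk)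
  | single σ a =>
    obtain ⟨k, hk⟩ := exists_pow_single F U V hU hV hUV n σ
    refine ⟨k, ?_⟩
    have : (Finsupp.single σ a : SC F X n) = a • Finsupp.single σ 1 := by simp
    rw [this, map_smul]
    exact Submodule.smul_mem _ _ hk

theorem small_cycle (hU : IsOpen U) (hV : IsOpen V) (hUV : U ∪ V = Set.univ) (n : ℕ)
    (z : SC F X n) (hz : z ∈ cyc F X n) :
    ∃ (u : SC F U n) (v : SC F V n),
      z - (push F (inc U) n u + push F (inc V) n v) ∈ bdy F X n := by
  obtain ⟨k, hk⟩ := exists_pow F U V hU hV hUV n z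
  obtain ⟨u, v, huv⟩ := (mem_smC F U V).1 hk
  refine ⟨u, v, ?_⟩
  rw [← huv]
  clear hk huv u v
  cases n with
  | zero =>
    have : ((Sd F X 0) ^ k) z = z := by
      induction k with
      | zero => simp
      | succ k ih => rw [pow_succ', Module.End.mul_apply, ih, Sd_zero]
    rw [this, sub_self]
    exact Submodule.zero_mem _
  | succ n =>
    have hz' : bd F X n z = 0 := hz
    have hcyc : ∀ k, bd F X n (((Sd F X (n + 1)) ^ k) z) = 0 := by
      intro k
      induction k with
      | zero => simpa using hz'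
      | succ k ih => rw [pow_succ', Module.End.mul_apply, bd_Sd, ih, map_zero]
    induction k with
    | zero => simp
    | succ k ih =>
      have h1 : z - ((Sd F X (n + 1)) ^ (k + 1)) z = (z - ((Sd F X (n + 1)) ^ k) z) +
          (((Sd F X (n + 1)) ^ k) z - Sd F X (n + 1) (((Sd F X (n + 1)) ^ k) z)) := by
        rw [pow_succ', Module.End.mul_apply]
        abel
      rw [h1]
      refine Submodule.add_mem _ ih ?_
      rw [← bd_Th, hcyc k, map_zero, add_zero]
      exact ⟨_, rfl⟩

private theorem sub_pow_Sd (n k : ℕ) : ∀ (w : SC F X (n + 1)) (u : SC F U n) (v : SC F V n),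
    bd F X n w = push F (inc U) n u + push F (inc V) n v →
    ∃ (e : SC F X (n + 2)) (u1 : SC F U (n + 1)) (v1 : SC F V (n + 1)),
      w - ((Sd F X (n + 1)) ^ k) w =
        bd F X (n + 1) e + (push F (inc U) (n + 1) u1 + push F (inc V) (n + 1) v1) := by
  induction k with
  | zero => intro w u v _; exact ⟨0, 0, 0, by simp⟩
  | succ k ih =>
    intro w u v h
    obtain ⟨e, u1, v1, h1⟩ := ih (Sd F X (n + 1) w) (Sd F U n u) (Sd F V n v) (by
      rw [bd_Sd, h, map_add, push_Sd, push_Sd])
    refine ⟨e + Th F X (n + 1) w, u1 + Th F U n u, v1 + Th F V n v, ?_⟩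
    have h2 := bd_Th F X n w
    rw [h, map_add, ← push_Th, ← push_Th] at h2
    rw [pow_succ, Module.End.mul_apply]
    have h3 : w - ((Sd F X (n + 1)) ^ k) (Sd F X (n + 1) w) =
        (w - Sd F X (n + 1) w) + (Sd F X (n + 1) w - ((Sd F X (n + 1)) ^ k) (Sd F X (n + 1) w)) := by
      abel
    rw [h3, h1, ← h2]
    simp only [map_add]
    abel

theorem small_bdy (hU : IsOpen U) (hV : IsOpen V) (hUV : U ∪ V = Set.univ) (n : ℕ)
    (u : SC F U n) (v : SC F V n)
    (h : push F (inc U) n u + push F (inc V) n v ∈ bdy F X n) :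
    ∃ (u' : SC F U (n + 1)) (v' : SC F V (n + 1)),
      push F (inc U) n u + push F (inc V) n v =
        bd F X n (push F (inc U) (n + 1) u' + push F (inc V) (n + 1) v') := by
  obtain ⟨w, hw⟩ := h
  obtain ⟨k, hk⟩ := exists_pow F U V hU hV hUV (n + 1) w
  obtain ⟨u2, v2, h2⟩ := (mem_smC F U V).1 hk
  obtain ⟨e, u1, v1, h1⟩ := sub_pow_Sd F U V n k w u v hw
  refine ⟨u1 + u2, v1 + v2, ?_⟩
  have h3 : w = bd F X (n + 1) e + (push F (inc U) (n + 1) (u1 + u2) +
      push F (inc V) (n + 1) (v1 + v2)) := by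
    rw [h2, sub_eq_iff_eq_add] at h1
    rw [h1]
    simp only [map_add]
    abel
  have h4 : bd F X n (bd F X (n + 1) e) = 0 := by
    have := congrArg (fun f => f e) (bd_bd F (X := X) n)
    simpa using this
  rw [← hw]
  conv_lhs => rw [h3]
  rw [map_add (bd F X n), h4, zero_add]

end S4

end Pool.Agent.helper73.TC
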